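import Pool.Agent.Helper76.TX.StAn

/-!
# Project TX, module LTC: the central value of the twisted `L`-function as a path sum
-/

set_option autoImplicit false

namespace Pool.Agent.Helper92.TX

open Pool.Agent.Helper76.TX Pool.Agent.Helper14.CV

/-- The right side `mellin hX (s+1/2) (2π)^(s+1/2) (1/Γ(s+1/2))`. -/
private noncomputable def phi {N D : ℕ} (χ : DirichletCharacter ℂ D) (f : CuspForm (G0 N) 2)
    (s : ℂ) : ℂ :=
  mellin (hX χ f) (s + 1 / 2) * ((2 * Real.pi : ℝ) : ℂ) ^ (s + 1 / 2) *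
    (Complex.Gamma (s + 1 / 2))⁻¹

private lemma phi_diff (h6 : AN6) (N : ℕ) (hN : NeZero N) (f : CuspForm (G0 N) 2) (D : ℕ)
    (hD : NeZero D) (χ : DirichletCharacter ℂ D) : Differentiable ℂ (phi χ f) := by
  have hs : Differentiable ℂ fun s : ℂ => s + 1 / 2 := by fun_prop
  have h1 : Differentiable ℂ fun s : ℂ => mellin (hX χ f) (s + 1 / 2) :=
    (h6 N hN f D hD χ).1.comp hs
  have h3 : Differentiable ℂ fun s : ℂ => (Complex.Gamma (s + 1 / 2))⁻¹ :=
    Complex.differentiable_one_div_Gamma.comp hs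
  have hpi : ((2 * Real.pi : ℝ) : ℂ) ≠ 0 := by
    have : (2 * Real.pi : ℝ) ≠ 0 := by positivity
    exact_mod_cast this
  have h2 : Differentiable ℂ fun s : ℂ => ((2 * Real.pi : ℝ) : ℂ) ^ (s + 1 / 2) :=
    fun s => (hs s).const_cpow (Or.inl hpi)
  exact (h1.mul h2).mul h3

private lemma term_eq (x : ℂ) (t : ℂ) (m : ℕ) (s : ℂ) (hs : 3 / 2 < s.re) :
    Complex.Gamma (s + 1 / 2) * (t * x) / ((2 * Real.pi * m : ℝ) : ℂ) ^ (s + 1 / 2) *
      (((2 * Real.pi : ℝ) : ℂ) ^ (s + 1 / 2) * (Complex.Gamma (s + 1 / 2))⁻¹) =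
    x / (m : ℂ) ^ (1 / 2 : ℂ) / (m : ℂ) ^ s * t := by
  have hre : (s + 1 / 2).re = s.re + 1 / 2 := by
    rw [Complex.add_re]
    norm_num
  have hG : Complex.Gamma (s + 1 / 2) ≠ 0 := by
    apply Complex.Gamma_ne_zero_of_re_pos
    rw [hre]
    linarith
  have hne : s + 1 / 2 ≠ 0 := by
    intro h
    have := congrArg Complex.re h
    rw [hre, Complex.zero_re] at this
    linarith
  rcases Nat.eq_zero_or_pos m with hm | hm
  · subst hm
    rw [Nat.cast_zero, mul_zero, Complex.ofReal_zero, Nat.cast_zero, Complex.zero_cpow hne,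
      Complex.zero_cpow (by norm_num : (1 / 2 : ℂ) ≠ 0)]
    simp
  · have hmC : (m : ℂ) ≠ 0 := by exact_mod_cast hm.ne'
    have hpi : ((2 * Real.pi : ℝ) : ℂ) ≠ 0 := by
      have : (2 * Real.pi : ℝ) ≠ 0 := by positivity
      exact_mod_cast this
    have e1 : ((2 * Real.pi * m : ℝ) : ℂ) ^ (s + 1 / 2) =
        ((2 * Real.pi : ℝ) : ℂ) ^ (s + 1 / 2) * (m : ℂ) ^ (s + 1 / 2) := by
      rw [Complex.ofReal_mul (2 * Real.pi) (m : ℝ), Complex.mul_cpow_ofReal_nonneg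
        (by positivity) (Nat.cast_nonneg m), Complex.ofReal_natCast]
    have e2 : (m : ℂ) ^ (s + 1 / 2) = (m : ℂ) ^ s * (m : ℂ) ^ (1 / 2 : ℂ) :=
      Complex.cpow_add _ _ hmC
    rw [e1, e2]
    have n1 : ((2 * Real.pi : ℝ) : ℂ) ^ (s + 1 / 2) ≠ 0 := by
      rw [Complex.cpow_ne_zero_iff_of_exponent_ne_zero hne]
      exact hpi
    have n2 : (m : ℂ) ^ (1 / 2 : ℂ) ≠ 0 := by
      rw [Complex.cpow_ne_zero_iff_of_exponent_ne_zero (by norm_num)]
      exact hmC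
    have n3 : (m : ℂ) ^ s ≠ 0 := by
      rw [Complex.cpow_ne_zero_iff]
      exact Or.inl hmC
    generalize Complex.Gamma (s + 1 / 2) = g at hG ⊢
    generalize ((2 * Real.pi : ℝ) : ℂ) ^ (s + 1 / 2) = c1 at n1 ⊢
    generalize (m : ℂ) ^ (1 / 2 : ℂ) = c2 at n2 ⊢
    generalize (m : ℂ) ^ s = c3 at n3 ⊢
    field_simp

private lemma agree (h5 : AN5) (N : ℕ) (hN : NeZero N) (f : CuspForm (G0 N) 2) (D : ℕ)
    (hD : NeZero D) (χ : DirichletCharacter ℂ D) (L : ℂ → ℂ) (hχ : χ.IsPrimitive)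
    (hL : IsLTw χ f L) (s : ℂ) (hs : 3 / 2 < s.re) : L s * tau χ = phi χ f s := by
  have hre : 2 < (s + 1 / 2).re := by
    rw [Complex.add_re]
    norm_num
    linarith
  have h1 := (h5 N hN f D hD χ hχ (s + 1 / 2) hre).mul_right
    (((2 * Real.pi : ℝ) : ℂ) ^ (s + 1 / 2) * (Complex.Gamma (s + 1 / 2))⁻¹)
  have h2 := (hL.2 s hs).mul_right (tau χ)
  have e : (fun m : ℕ => Complex.Gamma (s + 1 / 2) * (tau χ * χ (m : ZMod D) * fc f m) /
      ((2 * Real.pi * m : ℝ) : ℂ) ^ (s + 1 / 2) *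
      (((2 * Real.pi : ℝ) : ℂ) ^ (s + 1 / 2) * (Complex.Gamma (s + 1 / 2))⁻¹)) =
      fun m : ℕ => χ (m : ZMod D) * fc f m / (m : ℂ) ^ (1 / 2 : ℂ) / (m : ℂ) ^ s * tau χ := by
    funext m
    rw [mul_assoc (tau χ)]
    exact term_eq _ _ m s hs
  rw [e] at h1
  rw [h2.unique h1]
  unfold phi
  ring

/-- LTC: the central value of the twisted `L`-function as a path sum. -/
theorem hLTC : StLTC := by
  intro h5 h6 h3 N hN f D hD χ L G hχ hL hG
  refine ⟨(h3 D hD χ hχ).1, ?_⟩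
  have hd1 : Differentiable ℂ fun s : ℂ => L s * tau χ := hL.1.mul_const _
  have hd2 := phi_diff h6 N hN f D hD χ
  have key : (fun s : ℂ => L s * tau χ) = phi χ f := by
    apply AnalyticOnNhd.eq_of_eventuallyEq (𝕜 := ℂ) (z₀ := (2 : ℂ))
      (fun z _ => hd1.analyticAt z) (fun z _ => hd2.analyticAt z)
    have hopen : IsOpen {w : ℂ | 3 / 2 < w.re} := isOpen_lt continuous_const Complex.continuous_re
    have hmem : (2 : ℂ) ∈ {w : ℂ | 3 / 2 < w.re} := by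
      change (3 / 2 : ℝ) < (2 : ℂ).re
      norm_num
    filter_upwards [hopen.mem_nhds hmem] with w hw
    exact agree h5 N hN f D hD χ L hχ hL w hw
  have k : L (1 / 2) * tau χ = phi χ f (1 / 2) := congrFun key (1 / 2)
  rw [k, ← (h6 N hN f D hD χ).2 G hG]
  unfold phi
  have e1 : (1 / 2 + 1 / 2 : ℂ) = 1 := by norm_num
  rw [e1, Complex.Gamma_one, Complex.cpow_one]
  push_cast
  ring

end Pool.Agent.Helper92.TX
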